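import Pool.Agent.H705.GB.Stm

/-! Facts on `Reach` (project GB). -/

set_option autoImplicit false

namespace Pool.Agent.H25.GB

open Pool.Agent.H705.GB
open Pool.Agent.H705.TR (PrimeIn)

theorem nl_le (N n c y y' : ℕ) : nl N n c y y' ≤ c := by
  unfold nl
  exact (min_le_left _ _).trans (Nat.sub_le _ _)

theorem T_RCH : P_RCH := by
  refine ⟨?_, ?_, ?_, ?_⟩
  · intro z B N Q Q' K
    induction K with
    | zero => intro j n c x _ h; exact h
    | succ K ih =>
      intro j n c x hQ h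
      rcases h with ⟨h1, h2⟩ | ⟨h1, h2, h3⟩ | ⟨h1, h2, h3, h4⟩
      · exact Or.inl ⟨h1, hQ _ _ _ h1 h2⟩
      · exact Or.inr (Or.inl ⟨h1, h2, ih _ _ _ _ hQ h3⟩)
      · exact Or.inr (Or.inr ⟨h1, h2, h3, ih _ _ _ _ hQ h4⟩)
  · intro z B N Q K
    induction K with
    | zero => intro j n c x x' _; exact Iff.rfl
    | succ K ih =>
      intro j n c x x' h
      have h1 : ∀ j : ℕ, _ := fun j =>
        ih j (nt N n c (x c) (x (2 * N - c))) (nl N n c (x c) (x (2 * N - c))) x x' fun i hi =>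
          h i (hi.trans (nl_le _ _ _ _ _))
      unfold Reach
      rw [h1 j, h1 (j - 1), (h c le_rfl).1, (h c le_rfl).2]
  · intro z B N Q K
    induction K with
    | zero => intro j n c x h; exact h.elim
    | succ K ih =>
      intro j n c x h
      rcases h with ⟨h1, _⟩ | ⟨h1, h2, h3⟩ | ⟨h1, h2, h3, h4⟩
      · by_cases hq : Q c (x c) (x (2 * N - c))
        · exact Or.inl (Or.inl ⟨h1, hq⟩)
        · exact Or.inr (Or.inl ⟨h1, hq⟩)
      · rcases ih _ _ _ _ h3 with h5 | h5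
        · exact Or.inl (Or.inr (Or.inl ⟨h1, h2, h5⟩))
        · exact Or.inr (Or.inr (Or.inl ⟨h1, h2, h5⟩))
      · rcases ih _ _ _ _ h4 with h5 | h5
        · exact Or.inl (Or.inr (Or.inr ⟨h1, h2, h3, h5⟩))
        · exact Or.inr (Or.inr (Or.inr ⟨h1, h2, h3, h5⟩))
  · intro z N c y y'
    constructor
    · rintro ⟨h0, h1⟩
      exact ⟨fun p hp _ hpc => h0 p hp hpc, fun p hp _ hpc => h1 p hp hpc⟩
    · intro hN hc hR
      have key : ∀ p : ℕ, p ^ 2 ≤ 2 * N → p ≤ z := by
        intro p hp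
        by_contra hlt
        push Not at hlt
        have h1 : (z + 1) ^ 2 ≤ p ^ 2 := Nat.pow_le_pow_left hlt 2
        omega
      exact ⟨fun p hp hpc => hR.1 p hp (key p (by omega)) hpc,
        fun p hp hpc => hR.2 p hp (key p (by omega)) hpc⟩

end Pool.Agent.H25.GB
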